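import Pool.Agent.H28.PartSum

set_option autoImplicit false

namespace Pool.Agent.Results.MP_62fa17_nt.SumA

open Finset PowerSeries Pool.Agent.H28.PartSum

theorem result (n : ℕ) (_hn : 1 < n) :
    ∑ l ∈ Lam n, (1 + part l 0 : ℚ) * Cf l *
      ∏ i : Fin n, ((if i.1 = 0 then 1 else 2 * (i.1 + 1 : ℚ) - 3) / (i.1 + 1 : ℚ)) ^ l i
      = 2 ^ n := by
  set x : ℕ → ℚ := fun i => (if i = 0 then 1 else 2 * (i + 1 : ℚ) - 3) / (i + 1 : ℚ) with hx
  have h1 := lam_sum n (fun l => (1 + part l 0 : ℚ)) fun l => ∏ i : Fin n, x i ^ l i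
  have h2 := main n x (fun j => 1 + j) n
  have h3 := red n x 1 (PowerSeries.mk fun k => 2 ^ k) ?_
  · simp only [one_pow, mul_one, coeff_mk] at h3
    exact h1.trans (h2.trans h3)
  set w := 1 - C (1 : ℚ) * (X * PowerSeries.mk fun k => ∏ i ∈ range (k + 1), x i) with hw
  have h4 := ode w (-1) fun k => by
    rcases k with _ | k
    · simp [hw, hx, coeff_one]
    · simp only [hw, map_one, one_mul, map_sub, coeff_succ_X_mul, coeff_mk, coeff_one,
        Nat.add_eq_zero_iff, one_ne_zero, and_false, if_false]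
      rw [prod_range_succ _ (k + 1)]
      simp only [hx, Nat.add_eq_zero_iff, one_ne_zero, and_false, if_false]
      push_cast; field_simp; ring
  have h5 : coeff 0 (w ^ 2) = 1 := by simp [hw]
  have h6 : coeff 1 (w ^ 2) = -2 := by have := h4 0; rw [h5] at this; simpa using this
  have h7 : ∀ k, coeff (k + 2) (w ^ 2) = 0 := fun k => by
    induction k with
    | zero => have := h4 1; norm_num at this ⊢; exact this
    | succ k ih =>
      have := h4 (k + 2)
      rw [ih, mul_zero] at this
      exact (mul_eq_zero.1 this).resolve_right (by positivity)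
  have h8 : w ^ 2 = 1 - C 2 * X := by
    ext k
    rcases k with _ | _ | k
    · simpa using h5
    · simpa [coeff_one] using h6
    · simpa [coeff_one, coeff_X] using h7 k
  rw [h8]
  ext k
  rcases k with _ | k
  · simp
  · rw [sub_mul, mul_assoc, map_sub, coeff_C_mul, coeff_succ_X_mul]; simp [coeff_one, pow_succ']

end Pool.Agent.Results.MP_62fa17_nt.SumA
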