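import Pool.Agent.H28.PartSum

set_option autoImplicit false

namespace Pool.Agent.Results.MP_62fa17_nt.SumB

open Finset PowerSeries Pool.Agent.H28.PartSum

theorem result (n : ℕ) (hn : 1 < n) :
    ∑ l ∈ Lam n, (-1) ^ (1 + part l 0) * (1 + part l 0 : ℚ) * Cf l *
      ∏ i : Fin n, ((2 * (i.1 + 1 : ℚ) - 1) / (i.1 + 1 : ℚ)) ^ l i = 0 := by
  set x : ℕ → ℚ := fun i => (2 * (i + 1 : ℚ) - 1) / (i + 1 : ℚ) with hx
  have h1 := lam_sum n (fun l => (-1) ^ (1 + part l 0) * (1 + part l 0 : ℚ))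
    fun l => ∏ i : Fin n, x i ^ l i
  have h2 := main n x (fun j => (-1) ^ (1 + j) * (1 + j)) n
  have h3 := red n x (-1) (1 - C 2 * X) ?_
  · refine h1.trans (h2.trans ?_)
    obtain ⟨k, rfl⟩ := Nat.exists_eq_add_of_lt hn
    have : coeff (1 + k + 1) (1 - C 2 * X : ℚ⟦X⟧) = 0 := by simp [coeff_one, coeff_C]
    rw [← neg_eq_zero, ← sum_neg_distrib, ← this, ← h3]
    exact sum_congr rfl fun j _ => by ring
  set w := 1 - C (-1 : ℚ) * (X * PowerSeries.mk fun k => ∏ i ∈ range (k + 1), x i) with hw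
  have h4 := ode w 1 fun k => by
    rcases k with _ | k
    · simp [hw, hx, coeff_one]; norm_num
    · simp only [hw, map_sub, coeff_C_mul, coeff_succ_X_mul, coeff_mk, coeff_one,
        Nat.add_eq_zero_iff, one_ne_zero, and_false, if_false]
      rw [prod_range_succ _ (k + 1)]
      simp only [hx]
      push_cast; field_simp; ring
  ext k
  rw [mul_sub, mul_one, mul_left_comm, map_sub, coeff_C_mul]
  rcases k with _ | k
  · simp [hw]
  · rw [coeff_succ_mul_X, coeff_one, if_neg (by omega), sub_eq_zero]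
    refine mul_right_cancel₀ (by positivity : (k + 1 : ℚ) ≠ 0) ?_
    rw [h4]; ring

end Pool.Agent.Results.MP_62fa17_nt.SumB
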